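import Mathlib

open Finset

namespace Pool.Agent.Results.MP_961d7e_lc.PByCyclicByThin

/-- alternating sum over subsets of a function periodic in one of the directions -/
lemma alt_sum_eq_zero {R : Type*} [CommRing R] {σ : Type*} [DecidableEq σ] (S : Finset σ)
    (T : σ → ℤ) (f : ℤ → R) (l : σ) (hl : l ∈ S) (hf : ∀ x, f (x + T l) = f x) (x : ℤ) :
    ∑ A ∈ S.powerset, (-1 : R) ^ A.card * f (x + ∑ a ∈ A, T a) = 0 := by
  obtain ⟨S', hS', rfl⟩ : ∃ S', l ∉ S' ∧ insert l S' = S :=
    ⟨S.erase l, Finset.notMem_erase _ _, Finset.insert_erase hl⟩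
  rw [Finset.sum_powerset_insert hS', ← Finset.sum_add_distrib]
  apply Finset.sum_eq_zero
  intro A hA
  have hlA : l ∉ A := fun h => hS' (Finset.mem_powerset.1 hA h)
  rw [Finset.card_insert_of_notMem hlA, Finset.sum_insert hlA]
  have : x + (T l + ∑ a ∈ A, T a) = (x + ∑ a ∈ A, T a) + T l := by ring
  rw [this, hf, pow_succ]
  ring

lemma prime_pow_dvd_lcm {p k a b : ℕ} (hp : p.Prime) (h : p ^ k ∣ Nat.lcm a b) (ha : a ≠ 0)
    (hb : b ≠ 0) : p ^ k ∣ a ∨ p ^ k ∣ b := by
  have h1 := Nat.factorization_lcm ha hb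
  rw [hp.pow_dvd_iff_le_factorization (Nat.lcm_ne_zero ha hb), h1] at h
  rw [hp.pow_dvd_iff_le_factorization ha, hp.pow_dvd_iff_le_factorization hb]
  simpa using h

lemma prime_pow_dvd_finset_lcm {p k : ℕ} (hp : p.Prime) {σ : Type*} [DecidableEq σ] (S : Finset σ)
    (e : σ → ℕ) (he : ∀ j ∈ S, e j ≠ 0) (hk : k ≠ 0) (h : p ^ k ∣ S.lcm e) : ∃ j ∈ S, p ^ k ∣ e j := by
  induction S using Finset.induction_on with
  | empty =>
    simp only [Finset.lcm_empty] at h
    have := Nat.eq_one_of_dvd_one h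
    exact absurd this (Nat.one_lt_pow hk hp.one_lt).ne'
  | insert a s ha ih =>
    rw [Finset.lcm_insert] at h
    have h2 : s.lcm e ≠ 0 := by
      intro h0
      rw [Finset.lcm_eq_zero_iff] at h0
      obtain ⟨x, hx, hx2⟩ := h0
      exact he x (Finset.mem_insert_of_mem hx) hx2
    rcases prime_pow_dvd_lcm hp h (he a (Finset.mem_insert_self _ _)) h2 with h3 | h3
    · exact ⟨a, Finset.mem_insert_self _ _, h3⟩
    · obtain ⟨j, hj, hj2⟩ := ih (fun j hj => he j (Finset.mem_insert_of_mem hj)) h3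
      exact ⟨j, Finset.mem_insert_of_mem hj, hj2⟩

/-- The key lemma (a version of Mirsky-Newman over an arbitrary commutative ring): in a vanishing
linear combination of indicator functions of residue classes, a modulus which does not divide any
of the other moduli has coefficient zero. -/
theorem coeff_eq_zero {R : Type*} [CommRing R] {ι : Type*} [DecidableEq ι] (J : Finset ι)
    (e : ι → ℕ) (r : ι → ℤ) (c : ι → R) (he : ∀ j ∈ J, e j ≠ 0) (i : ι) (hi : i ∈ J)
    (hmax : ∀ j ∈ J, j ≠ i → ¬ e i ∣ e j)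
    (hrel : ∀ x : ℤ, ∑ j ∈ J, (if (e j : ℤ) ∣ x - r j then c j else 0) = 0) : c i = 0 := by
  classical
  set S := (e i).primeFactors with hS
  -- assign a prime to each j
  have hass : ∀ j ∈ J, j ≠ i → ∃ l ∈ S, ¬ l ^ ((e i).factorization l) ∣ e j := by
    intro j hj hji
    by_contra hcon
    push Not at hcon
    apply hmax j hj hji
    rw [← Nat.factorization_le_iff_dvd (he i hi) (he j hj)]
    intro l
    by_cases hl : l ∈ S
    · have := hcon l hl
      rwa [(Nat.prime_of_mem_primeFactors hl).pow_dvd_iff_le_factorization (he j hj)] at this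
    · have : (e i).factorization l = 0 := by
        rwa [← Finsupp.notMem_support_iff, Nat.support_factorization]
      rw [this]; exact Nat.zero_le _
  choose! l hlS hl using hass
  -- the shifts
  set T : ℕ → ℕ := fun q => Nat.lcm (ordCompl[q] (e i)) (({j ∈ J | j ≠ i ∧ l j = q}).lcm e) with hT
  have hT1 : ∀ j ∈ J, j ≠ i → e j ∣ T (l j) := by
    intro j hj hji
    apply dvd_trans _ (Nat.dvd_lcm_right _ _)
    apply Finset.dvd_lcm
    simp [hj, hji]
  have hT2 : ∀ q ∈ S, ¬ q ^ ((e i).factorization q) ∣ T q := by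
    intro q hq hdvd
    have hqp := Nat.prime_of_mem_primeFactors hq
    have hk : (e i).factorization q ≠ 0 :=
      (hqp.factorization_pos_of_dvd (he i hi) (Nat.dvd_of_mem_primeFactors hq)).ne'
    have h0 : ({j ∈ J | j ≠ i ∧ l j = q}).lcm e ≠ 0 := by
      intro h0
      rw [Finset.lcm_eq_zero_iff] at h0
      obtain ⟨x, hx, hx2⟩ := h0
      exact he x (Finset.mem_filter.1 hx).1 hx2
    rcases prime_pow_dvd_lcm hqp hdvd (Nat.ordCompl_pos q (he i hi)).ne' h0 with h1 | h1
    · have h2 : q ∣ ordCompl[q] (e i) := dvd_trans (dvd_pow_self q hk) h1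
      exact Nat.not_dvd_ordCompl hqp (he i hi) h2
    · obtain ⟨j, hj, hj2⟩ := prime_pow_dvd_finset_lcm hqp _ e
        (fun j hj => he j (Finset.mem_filter.1 hj).1) hk h1
      simp only [Finset.mem_filter] at hj
      have := hl j hj.1 hj.2.1
      rw [hj.2.2] at this
      exact this hj2
  have hT3 : ∀ q ∈ S, ∀ q' ∈ S, q' ≠ q → q ^ ((e i).factorization q) ∣ T q' := by
    intro q hq q' hq' hne
    apply dvd_trans _ (Nat.dvd_lcm_left _ _)
    have hqp := Nat.prime_of_mem_primeFactors hq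
    have hqp' := Nat.prime_of_mem_primeFactors hq'
    have h1 : q ^ ((e i).factorization q) ∣ ordProj[q'] (e i) * ordCompl[q'] (e i) := by
      rw [Nat.ordProj_mul_ordCompl_eq_self]
      exact Nat.ordProj_dvd _ _
    apply Nat.Coprime.dvd_of_dvd_mul_left _ h1
    exact Nat.Coprime.pow _ _ ((Nat.coprime_primes hqp hqp').2 hne.symm)
  -- evaluate the alternating sum
  have hzero : ∑ A ∈ S.powerset, (-1 : R) ^ A.card *
      ∑ j ∈ J, (if (e j : ℤ) ∣ (r i + ∑ a ∈ A, (T a : ℤ)) - r j then c j else 0) = 0 := by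
    apply Finset.sum_eq_zero
    intro A _
    rw [hrel, mul_zero]
  have hswap : ∑ j ∈ J, ∑ A ∈ S.powerset, (-1 : R) ^ A.card *
      (if (e j : ℤ) ∣ (r i + ∑ a ∈ A, (T a : ℤ)) - r j then c j else 0) = 0 := by
    rw [Finset.sum_comm]
    refine (Finset.sum_congr rfl fun A _ => ?_).trans hzero
    rw [Finset.mul_sum]
  rw [Finset.sum_eq_single i] at hswap
  · rw [Finset.sum_eq_single ∅] at hswap
    · simpa using hswap
    · intro A hA hne
      obtain ⟨q, hq⟩ := Finset.nonempty_iff_ne_empty.2 hne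
      have hqS := Finset.mem_powerset.1 hA hq
      rw [if_neg, mul_zero]
      intro hdvd
      apply hT2 q hqS
      have h1 : ((q ^ ((e i).factorization q) : ℕ) : ℤ) ∣ r i + ∑ a ∈ A, (T a : ℤ) - r i :=
        dvd_trans (Int.natCast_dvd_natCast.2 (Nat.ordProj_dvd _ _)) hdvd
      have h2 : r i + ∑ a ∈ A, (T a : ℤ) - r i = T q + ∑ a ∈ A.erase q, (T a : ℤ) := by
        rw [← Finset.add_sum_erase _ _ hq]; ring
      rw [h2] at h1
      have h3 : ((q ^ ((e i).factorization q) : ℕ) : ℤ) ∣ ∑ a ∈ A.erase q, (T a : ℤ) := by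
        apply Finset.dvd_sum
        intro a ha
        rw [Finset.mem_erase] at ha
        exact Int.natCast_dvd_natCast.2
          (hT3 q hqS a (Finset.mem_powerset.1 hA ha.2) ha.1)
      exact Int.natCast_dvd_natCast.1 ((Int.dvd_add_left h3).1 h1)
    · intro h
      exact absurd (Finset.empty_mem_powerset _) h
  · intro j hj hji
    apply alt_sum_eq_zero S (fun a => (T a : ℤ))
      (fun x => if (e j : ℤ) ∣ x - r j then c j else 0) (l j) (hlS j hj hji)
    intro x
    have h1 : (e j : ℤ) ∣ (T (l j) : ℤ) := Int.natCast_dvd_natCast.2 (hT1 j hj hji)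
    have h2 : (e j : ℤ) ∣ x + (T (l j) : ℤ) - r j ↔ (e j : ℤ) ∣ x - r j := by
      have : x + (T (l j) : ℤ) - r j = (x - r j) + T (l j) := by ring
      rw [this]
      exact Int.dvd_add_left h1
    simp only [h2]
  · intro h; exact absurd hi h


section Group

variable {Q : Type*} [Group Q]

open Subgroup

lemma zpow_mem_iff [Finite Q] (K : Subgroup Q) (γ : Q) (k : ℤ) :
    γ ^ k ∈ K ↔ ((K.relIndex (zpowers γ) : ℕ) : ℤ) ∣ k := by
  set g : zpowers γ := ⟨γ, mem_zpowers γ⟩ with hg
  set K' : Subgroup (zpowers γ) := K.subgroupOf (zpowers γ) with hK'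
  have : K'.Normal := inferInstance
  have h1 : K.relIndex (zpowers γ) = Nat.card (zpowers γ ⧸ K') := rfl
  have h2 : orderOf (QuotientGroup.mk (s := K') g) = Nat.card (zpowers γ ⧸ K') := by
    apply orderOf_eq_card_of_forall_mem_zpowers
    intro x
    induction x using QuotientGroup.induction_on with
    | H z =>
      obtain ⟨z, hz⟩ := z
      obtain ⟨m, hm⟩ := mem_zpowers_iff.1 hz
      rw [mem_zpowers_iff]
      refine ⟨m, ?_⟩
      rw [← QuotientGroup.mk_zpow]
      congr 1
      exact Subtype.ext (by simpa [hg] using hm)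
  rw [h1, ← h2, orderOf_dvd_iff_zpow_eq_one, ← QuotientGroup.mk_zpow, QuotientGroup.eq_one_iff,
    hK', mem_subgroupOf]
  simp [hg]

lemma index_eq_mul [Finite Q] (K C : Subgroup Q) [C.Normal] :
    K.index = (K ⊔ C).index * K.relIndex C := by
  have h1 : Nat.card (K ⊓ C : Subgroup Q) * K.relIndex C = Nat.card C := by
    have := card_mul_index (K.subgroupOf C)
    rw [← this]
    congr 1
    exact (Nat.card_congr (subgroupOfEquivOfLe (inf_le_right : K ⊓ C ≤ C)).toEquiv).symm.trans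
      (by rw [inf_subgroupOf_right])
  have h2 : Nat.card (K ⊓ C : Subgroup Q) * C.relIndex K = Nat.card K := by
    have := card_mul_index (C.subgroupOf K)
    rw [← this]
    congr 1
    exact (Nat.card_congr (subgroupOfEquivOfLe (inf_le_left : K ⊓ C ≤ K)).toEquiv).symm.trans
      (by rw [inf_subgroupOf_left])
  have h3 : Nat.card C * C.relIndex (K ⊔ C) = Nat.card (K ⊔ C : Subgroup Q) := by
    have := card_mul_index (C.subgroupOf (K ⊔ C))
    rw [← this]
    congr 1
    exact (Nat.card_congr (subgroupOfEquivOfLe (le_sup_right : C ≤ K ⊔ C)).toEquiv).symm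
  rw [relIndex_sup_right] at h3
  have h4 := card_mul_index K
  have h5 := card_mul_index (K ⊔ C)
  have hpos : 0 < Nat.card (K ⊓ C : Subgroup Q) := Nat.card_pos
  have hposK : 0 < Nat.card K := Nat.card_pos
  -- card (K ⊔ C) = card K * K.relIndex C
  have h6 : Nat.card (K ⊔ C : Subgroup Q) = Nat.card K * K.relIndex C := by
    apply Nat.eq_of_mul_eq_mul_left hpos
    rw [← h3, ← h2, ← h1]
    ring
  apply Nat.eq_of_mul_eq_mul_left hposK
  rw [h4, ← h5, h6]
  ring

/-- `n` is *thin* if for every divisor `e₀` of `n` the sum of `gcd (e₀, e) / e` over the divisors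
`e > e₀` of `n` is smaller than `1`. -/
def Thin (n : ℕ) : Prop :=
  ∀ e₀ ∈ n.divisors, ∑ e ∈ n.divisors with e₀ < e, ((Nat.gcd e₀ e : ℕ) : ℚ) / e < 1

/-- Powers of primes are thin. -/
theorem thin_prime_pow (q k : ℕ) (hq : q.Prime) : Thin (q ^ k) := by
  intro e₀ he₀
  obtain ⟨a, ha, rfl⟩ := (Nat.dvd_prime_pow hq).1 (Nat.dvd_of_mem_divisors he₀)
  have hq0 : (0 : ℚ) < q := by exact_mod_cast hq.pos
  have hq2 : (2 : ℚ) ≤ q := by exact_mod_cast hq.two_le
  have h1 : ∀ e ∈ (q ^ k).divisors.filter (fun e => q ^ a < e), ∃ b, a < b ∧ b ≤ k ∧ e = q ^ b := by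
    intro e he
    rw [Finset.mem_filter] at he
    obtain ⟨b, hb, rfl⟩ := (Nat.dvd_prime_pow hq).1 (Nat.dvd_of_mem_divisors he.1)
    exact ⟨b, (Nat.pow_lt_pow_iff_right hq.one_lt).1 he.2, hb, rfl⟩
  have h2 : (q ^ k).divisors.filter (fun e => q ^ a < e) ⊆
      (Finset.Ioc a k).image (fun b => q ^ b) := by
    intro e he
    obtain ⟨b, hb1, hb2, rfl⟩ := h1 e he
    exact Finset.mem_image.2 ⟨b, Finset.mem_Ioc.2 ⟨hb1, hb2⟩, rfl⟩
  have h3 : ∑ e ∈ (q ^ k).divisors with q ^ a < e, ((Nat.gcd (q ^ a) e : ℕ) : ℚ) / e ≤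
      ∑ e ∈ (Finset.Ioc a k).image (fun b => q ^ b), ((Nat.gcd (q ^ a) e : ℕ) : ℚ) / e :=
    Finset.sum_le_sum_of_subset_of_nonneg h2 (fun _ _ _ => by positivity)
  refine lt_of_le_of_lt h3 ?_
  rw [Finset.sum_image (fun x _ y _ h => Nat.pow_right_injective hq.two_le h)]
  have h4 : ∀ b ∈ Finset.Ioc a k, ((Nat.gcd (q ^ a) (q ^ b) : ℕ) : ℚ) / ((q ^ b : ℕ) : ℚ) ≤
      (1 / 2 : ℚ) ^ (b - a) := by
    intro b hb
    rw [Finset.mem_Ioc] at hb
    rw [Nat.gcd_eq_left (pow_dvd_pow q hb.1.le)]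
    have h5 : q ^ b = q ^ a * q ^ (b - a) := by rw [← pow_add]; congr 1; omega
    rw [h5, Nat.cast_mul, ← div_div, div_self (by exact_mod_cast (pow_pos hq.pos a).ne'), Nat.cast_pow, one_div_pow]
    exact one_div_le_one_div_of_le (by positivity) (pow_le_pow_left₀ (by norm_num) hq2 _)
  refine lt_of_le_of_lt (Finset.sum_le_sum h4) ?_
  have h6 : ∀ m : ℕ, ∑ b ∈ Finset.Ioc a (a + m), (1 / 2 : ℚ) ^ (b - a) = 1 - (1 / 2) ^ m := by
    intro m
    induction m with
    | zero => simp
    | succ m ih =>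
      rw [← add_assoc, Finset.sum_Ioc_succ_top (by omega), ih]
      have : a + m + 1 - a = m + 1 := by omega
      rw [this, pow_succ]; ring
  have h7 : Finset.Ioc a k = Finset.Ioc a (a + (k - a)) := by congr 1; omega
  rw [h7, h6]
  have : (0 : ℚ) < (1 / 2) ^ (k - a) := by positivity
  linarith

lemma card_coset_inter_le [Finite Q] (L L' : Subgroup Q) (a a' : Q) :
    (Nat.card {x : Q // a⁻¹ * x ∈ L ∧ a'⁻¹ * x ∈ L'} : ℚ) ≤
      Nat.card L * (((Nat.gcd L.index L'.index : ℕ) : ℚ) / L'.index) := by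
  have hi : (0 : ℚ) < L.index := by
    exact_mod_cast Nat.pos_of_ne_zero Subgroup.index_ne_zero_of_finite
  have hi' : (0 : ℚ) < L'.index := by
    exact_mod_cast Nat.pos_of_ne_zero Subgroup.index_ne_zero_of_finite
  have hQ : (0 : ℚ) < Nat.card Q := by exact_mod_cast Nat.card_pos
  -- the intersection is empty or a coset of `L ⊓ L'`
  have h1 : Nat.card {x : Q // a⁻¹ * x ∈ L ∧ a'⁻¹ * x ∈ L'} ≤ Nat.card (L ⊓ L' : Subgroup Q) := by
    rcases isEmpty_or_nonempty {x : Q // a⁻¹ * x ∈ L ∧ a'⁻¹ * x ∈ L'} with h | ⟨⟨x0, hx0, hx0'⟩⟩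
    · rw [Nat.card_of_isEmpty]; exact Nat.zero_le _
    · apply Nat.card_le_card_of_injective
        (fun x : {x : Q // a⁻¹ * x ∈ L ∧ a'⁻¹ * x ∈ L'} =>
          (⟨x0⁻¹ * x.1, by
            rw [Subgroup.mem_inf]
            constructor
            · have : x0⁻¹ * x.1 = (a⁻¹ * x0)⁻¹ * (a⁻¹ * x.1) := by group
              rw [this]; exact L.mul_mem (L.inv_mem hx0) x.2.1
            · have : x0⁻¹ * x.1 = (a'⁻¹ * x0)⁻¹ * (a'⁻¹ * x.1) := by group
              rw [this]; exact L'.mul_mem (L'.inv_mem hx0') x.2.2⟩ : (L ⊓ L' : Subgroup Q)))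
      intro x y hxy
      have := congrArg Subtype.val hxy
      simp only at this
      exact Subtype.ext (mul_left_cancel this)
  -- its index is a multiple of the lcm
  have h2 : Nat.lcm L.index L'.index ≤ (L ⊓ L').index := by
    apply Nat.le_of_dvd (Nat.pos_of_ne_zero Subgroup.index_ne_zero_of_finite)
    exact Nat.lcm_dvd (index_dvd_of_le inf_le_left) (index_dvd_of_le inf_le_right)
  have h3 : (Nat.card (L ⊓ L' : Subgroup Q) : ℚ) * (L ⊓ L').index = Nat.card Q := by
    exact_mod_cast card_mul_index (L ⊓ L')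
  have h4 : (Nat.card L : ℚ) * L.index = Nat.card Q := by exact_mod_cast card_mul_index L
  have h5 : ((Nat.gcd L.index L'.index : ℕ) : ℚ) * (Nat.lcm L.index L'.index : ℕ) =
      L.index * L'.index := by exact_mod_cast Nat.gcd_mul_lcm _ _
  have hg : (0 : ℚ) < (Nat.gcd L.index L'.index : ℕ) := by
    exact_mod_cast Nat.gcd_pos_of_pos_left _ (Nat.pos_of_ne_zero Subgroup.index_ne_zero_of_finite)
  have h2' : ((Nat.lcm L.index L'.index : ℕ) : ℚ) ≤ ((L ⊓ L').index : ℕ) := by exact_mod_cast h2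
  have hc : (0 : ℚ) ≤ Nat.card (L ⊓ L' : Subgroup Q) := by positivity
  calc (Nat.card {x : Q // a⁻¹ * x ∈ L ∧ a'⁻¹ * x ∈ L'} : ℚ)
      ≤ Nat.card (L ⊓ L' : Subgroup Q) := by exact_mod_cast h1
    _ ≤ Nat.card L * (((Nat.gcd L.index L'.index : ℕ) : ℚ) / L'.index) := by
      rw [← mul_div_assoc, le_div_iff₀ hi']
      -- multiply by lcm and L.index
      have h6 : (Nat.card (L ⊓ L' : Subgroup Q) : ℚ) * (Nat.lcm L.index L'.index : ℕ) ≤
          Nat.card L * L.index := by
        rw [h4, ← h3]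
        exact mul_le_mul_of_nonneg_left h2' hc
      have h7 : (Nat.card (L ⊓ L' : Subgroup Q) : ℚ) * L'.index * L.index =
          (Nat.card (L ⊓ L' : Subgroup Q) : ℚ) * (Nat.lcm L.index L'.index : ℕ) *
            (Nat.gcd L.index L'.index : ℕ) := by
        rw [mul_assoc, mul_assoc, mul_comm (L'.index : ℚ), ← h5]
        ring
      have h8 := mul_le_mul_of_nonneg_right h6 hg.le
      rw [← h7] at h8
      have h9 : (Nat.card L : ℚ) * L.index * (Nat.gcd L.index L'.index : ℕ) =
        (Nat.card L * (Nat.gcd L.index L'.index : ℕ)) * L.index := by ring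
      rw [h9] at h8
      exact le_of_mul_le_mul_right h8 hi

/-- A finite family of left cosets of subgroups whose indices are pairwise different divisors of a
thin number has a point which is covered exactly once. -/
lemma exists_unique_point [Finite Q] {ι : Type*} [DecidableEq ι] (U : Finset ι) (hU : U.Nonempty)
    (L : ι → Subgroup Q) (a : ι → Q) (n : ℕ) (hn0 : n ≠ 0) (hn : Thin n)
    (hb : ∀ i ∈ U, (L i).index ∣ n) (hinj : Set.InjOn (fun i => (L i).index) U) :
    ∃ i ∈ U, ∃ x, (a i)⁻¹ * x ∈ L i ∧ ∀ j ∈ U, (a j)⁻¹ * x ∈ L j → j = i := by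
  classical
  obtain ⟨i, hi, hmin⟩ := U.exists_min_image (fun i => (L i).index) hU
  refine ⟨i, hi, ?_⟩
  by_contra hcon
  push Not at hcon
  have := Fintype.ofFinite Q
  set D : ι → Finset Q := fun j => Finset.univ.filter fun x => (a i)⁻¹ * x ∈ L i ∧ (a j)⁻¹ * x ∈ L j
    with hD
  have hcard : ∀ j, ((D j).card : ℚ) ≤ Nat.card (L i) *
      (((Nat.gcd (L i).index (L j).index : ℕ) : ℚ) / (L j).index) := by
    intro j
    rw [hD]
    simp only
    rw [← Fintype.card_subtype, ← Nat.card_eq_fintype_card]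
    exact card_coset_inter_le (L i) (L j) (a i) (a j)
  have hcardi : (Finset.univ.filter fun x => (a i)⁻¹ * x ∈ L i).card = Nat.card (L i) := by
    have : Nat.card (L i) = (Finset.univ.filter fun x => x ∈ L i).card := by
      rw [Nat.card_eq_fintype_card, Fintype.card_subtype]
    rw [this]
    apply Finset.card_bij (fun x _ => (a i)⁻¹ * x)
    · intro x hx; simpa using hx
    · intro x _ y _ h; exact mul_left_cancel h
    · intro y hy
      refine ⟨a i * y, by simpa using hy, by simp⟩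
  have hsub : (Finset.univ.filter fun x => (a i)⁻¹ * x ∈ L i) ⊆ (U.erase i).biUnion D := by
    intro x hx
    have hx' : (a i)⁻¹ * x ∈ L i := by simpa using hx
    obtain ⟨j, hj, hxj, hne⟩ := hcon x hx'
    rw [Finset.mem_biUnion]
    exact ⟨j, Finset.mem_erase.2 ⟨hne, hj⟩, by simp [hD, hx', hxj]⟩
  have h1 : (Nat.card (L i) : ℚ) ≤ ∑ j ∈ U.erase i, ((D j).card : ℚ) := by
    rw [← hcardi]
    exact_mod_cast (Finset.card_le_card hsub).trans Finset.card_biUnion_le
  have h2 : (Nat.card (L i) : ℚ) ≤ Nat.card (L i) * ∑ j ∈ U.erase i,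
      (((Nat.gcd (L i).index (L j).index : ℕ) : ℚ) / (L j).index) := by
    rw [Finset.mul_sum]
    exact h1.trans (Finset.sum_le_sum fun j _ => hcard j)
  have hpos : (0 : ℚ) < Nat.card (L i) := by exact_mod_cast Nat.card_pos
  have h3 : (1 : ℚ) ≤ ∑ j ∈ U.erase i,
      (((Nat.gcd (L i).index (L j).index : ℕ) : ℚ) / (L j).index) := by
    by_contra hlt
    push Not at hlt
    have := mul_lt_mul_of_pos_left hlt hpos
    linarith
  have h4 : ∑ j ∈ U.erase i, (((Nat.gcd (L i).index (L j).index : ℕ) : ℚ) / (L j).index) =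
      ∑ e ∈ (U.erase i).image (fun j => (L j).index), ((Nat.gcd (L i).index e : ℕ) : ℚ) / e := by
    rw [Finset.sum_image]
    intro x hx y hy hxy
    exact hinj (Finset.mem_of_mem_erase hx) (Finset.mem_of_mem_erase hy) hxy
  have h5 : ∑ e ∈ (U.erase i).image (fun j => (L j).index), ((Nat.gcd (L i).index e : ℕ) : ℚ) / e ≤
      ∑ e ∈ n.divisors with (L i).index < e, ((Nat.gcd (L i).index e : ℕ) : ℚ) / e := by
    apply Finset.sum_le_sum_of_subset_of_nonneg
    · intro e he
      rw [Finset.mem_image] at he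
      obtain ⟨j, hj, rfl⟩ := he
      have hj' := Finset.mem_of_mem_erase hj
      rw [Finset.mem_filter, Nat.mem_divisors]
      refine ⟨⟨hb j hj', hn0⟩, lt_of_le_of_ne (hmin j hj') ?_⟩
      intro h
      exact (Finset.ne_of_mem_erase hj) (hinj hj' hi h.symm)
    · intro e _ _
      positivity
  have h6 := hn (L i).index (Nat.mem_divisors.2 ⟨hb i hi, hn0⟩)
  linarith

/-- Linear independence of the indicator functions of left cosets of pairwise different index in a
finite group with a normal cyclic subgroup of thin index (over any commutative ring). -/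
theorem linear_independence [Finite Q] (γ : Q) [hn : (zpowers γ).Normal]
    (hs : Thin (zpowers γ).index) {R : Type*} [CommRing R] {ι : Type*} [DecidableEq ι]
    (T : Finset ι) (K : ι → Subgroup Q) (a : ι → Q) (c : ι → R) (hc : ∀ i ∈ T, c i ≠ 0)
    (hinj : ∀ i ∈ T, ∀ j ∈ T, (K i).index = (K j).index → i = j)
    [∀ i, DecidablePred (· ∈ K i)]
    (hrel : ∀ g, ∑ i ∈ T, (if (a i)⁻¹ * g ∈ K i then c i else 0) = 0) : T = ∅ := by
  classical
  by_contra hne
  have hT : T.Nonempty := Finset.nonempty_iff_ne_empty.2 hne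
  set C := zpowers γ with hC
  set e : ι → ℕ := fun i => (K i).relIndex C with he
  have hepos : ∀ i, e i ≠ 0 := by
    intro i
    exact Subgroup.index_ne_zero_of_finite
  obtain ⟨i1, hi1, hmax⟩ := T.exists_max_image e hT
  set U := T.filter fun i => e i = e i1 with hU
  have hUne : U.Nonempty := ⟨i1, by simp [hU, hi1]⟩
  have hbinj : Set.InjOn (fun i => (K i ⊔ C).index) U := by
    intro i hi j hj hij
    simp only [hU, Finset.coe_filter, Set.mem_ofPred_eq] at hi hj
    simp only at hij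
    apply hinj i hi.1 j hj.1
    rw [index_eq_mul (K i) C, index_eq_mul (K j) C, hij]
    congr 1
    exact hi.2.trans hj.2.symm
  obtain ⟨i0, hi0, x, hx, huniq⟩ := exists_unique_point U hUne (fun i => K i ⊔ C) a C.index
    Subgroup.index_ne_zero_of_finite hs (fun i _ => index_dvd_of_le le_sup_right) hbinj
  -- restrict to x * C
  set J := T.filter fun i => ∃ k : ℤ, (a i)⁻¹ * (x * γ ^ k) ∈ K i with hJ
  have hmemJ : ∀ i ∈ J, ∃ k : ℤ, (a i)⁻¹ * (x * γ ^ k) ∈ K i := by
    intro i hi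
    exact (Finset.mem_filter.1 hi).2
  choose! r hr using hmemJ
  have hsup : ∀ i, (∃ k : ℤ, (a i)⁻¹ * (x * γ ^ k) ∈ K i) ↔ (a i)⁻¹ * x ∈ K i ⊔ C := by
    intro i
    constructor
    · rintro ⟨k, hk⟩
      have h1 : (a i)⁻¹ * x = ((a i)⁻¹ * (x * γ ^ k)) * (γ ^ k)⁻¹ := by group
      rw [h1]
      exact Subgroup.mul_mem _ (Subgroup.mem_sup_left hk)
        (Subgroup.mem_sup_right (Subgroup.inv_mem _ (zpow_mem (mem_zpowers γ) k)))
    · intro h
      rw [Subgroup.mem_sup_of_normal_right] at h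
      obtain ⟨y, hy, z, hz, hyz⟩ := h
      obtain ⟨m, rfl⟩ := mem_zpowers_iff.1 hz
      refine ⟨-m, ?_⟩
      have h1 : (a i)⁻¹ * (x * γ ^ (-m)) = ((a i)⁻¹ * x) * γ ^ (-m) := by group
      rw [h1, ← hyz]
      have : y * γ ^ m * γ ^ (-m) = y := by group
      rw [this]
      exact hy
  have hi0T : i0 ∈ T := (Finset.mem_filter.1 hi0).1
  have hi0e : e i0 = e i1 := (Finset.mem_filter.1 hi0).2
  have hi0J : i0 ∈ J := Finset.mem_filter.2 ⟨hi0T, (hsup i0).2 hx⟩
  apply hc i0 hi0T
  apply coeff_eq_zero J e r c (fun j _ => hepos j) i0 hi0J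
  · intro j hj hji hdvd
    have hjT : j ∈ T := (Finset.mem_filter.1 hj).1
    have h1 : e i0 ≤ e j := Nat.le_of_dvd (Nat.pos_of_ne_zero (hepos j)) hdvd
    have h2 : e j ≤ e i1 := hmax j hjT
    have h3 : j ∈ U := Finset.mem_filter.2 ⟨hjT, by omega⟩
    exact hji (huniq j h3 ((hsup j).1 (Finset.mem_filter.1 hj).2))
  · intro k
    have h1 := hrel (x * γ ^ k)
    rw [← Finset.sum_subset (Finset.filter_subset (fun i => ∃ k : ℤ, (a i)⁻¹ * (x * γ ^ k) ∈ K i) T)]
      at h1
    · refine (Finset.sum_congr rfl fun j hj => ?_).trans h1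
      have h2 : (a j)⁻¹ * (x * γ ^ k) ∈ K j ↔ ((e j : ℕ) : ℤ) ∣ k - r j := by
        rw [he]
        simp only
        rw [← zpow_mem_iff]
        have h3 : (a j)⁻¹ * (x * γ ^ k) = ((a j)⁻¹ * (x * γ ^ (r j))) * γ ^ (k - r j) := by
          rw [zpow_sub]; group
        rw [h3]
        exact Subgroup.mul_mem_cancel_left _ (hr j hj)
      simp only [h2]
    · intro j hjT hj
      rw [if_neg]
      intro h
      exact hj (Finset.mem_filter.2 ⟨hjT, k, h⟩)


variable {G : Type*} [Group G]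

lemma count_fiber [Finite G] (N H : Subgroup G) (a g : G) [DecidablePred (· ∈ H)] [Fintype N]
    [Decidable (∃ x ∈ N, a⁻¹ * (g * x) ∈ H)] :
    (∑ x : N, if a⁻¹ * (g * x) ∈ H then (1 : ℤ) else 0) =
      if (∃ x ∈ N, a⁻¹ * (g * x) ∈ H) then (Nat.card (N ⊓ H : Subgroup G) : ℤ) else 0 := by
  classical
  split_ifs with h
  · obtain ⟨x0, hx0, hx0H⟩ := h
    let e : {x : N // a⁻¹ * (g * x) ∈ H} ≃ (N ⊓ H : Subgroup G) :=
      { toFun := fun x => ⟨x0⁻¹ * x.1, by
          rw [Subgroup.mem_inf]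
          refine ⟨N.mul_mem (N.inv_mem hx0) x.1.2, ?_⟩
          have : x0⁻¹ * (x.1 : G) = (a⁻¹ * (g * x0))⁻¹ * (a⁻¹ * (g * x.1)) := by group
          rw [this]
          exact H.mul_mem (H.inv_mem hx0H) x.2⟩
        invFun := fun y => ⟨⟨x0 * y, N.mul_mem hx0 (Subgroup.mem_inf.1 y.2).1⟩, by
          have : a⁻¹ * (g * (x0 * y)) = (a⁻¹ * (g * x0)) * y := by group
          simp only [this]
          exact H.mul_mem hx0H (Subgroup.mem_inf.1 y.2).2⟩
        left_inv := fun x => by simp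
        right_inv := fun y => by simp }
    rw [Finset.sum_boole, ← Fintype.card_subtype, ← Nat.card_eq_fintype_card, Nat.card_congr e]
  · apply Finset.sum_eq_zero
    intro x _
    rw [if_neg]
    intro hx
    exact h ⟨x, x.2, hx⟩

/-- **Herzog-Schönheim** for groups with normal subgroups `N ≤ M`, `N` a `p`-group, `M / N` cyclic
and `|G / M|` thin. -/
theorem herzog_schonheim [Finite G] (N M : Subgroup G) [N.Normal] [M.Normal] (hNM : N ≤ M)
    (p : ℕ) (hp : p.Prime) (hN : IsPGroup p N)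
    (hM : IsCyclic (M ⧸ N.subgroupOf M)) (hGM : Thin M.index)
    {ι : Type*} [Fintype ι] (H : ι → Subgroup G) (a : ι → G) (hH : ∀ i, H i ≠ ⊤)
    (hpart : ∀ g, ∃! i, (a i)⁻¹ * g ∈ H i) : ∃ i j, i ≠ j ∧ (H i).index = (H j).index := by
  classical
  by_contra hcon
  push Not at hcon
  have : Fact p.Prime := ⟨hp⟩
  have := Fintype.ofFinite N
  set H' : Option ι → Subgroup G := fun i => i.elim ⊤ H with hH'
  set a' : Option ι → G := fun i => i.elim 1 a with ha'
  set c' : Option ι → ℤ := fun i => i.elim (-1) (fun _ => 1) with hc'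
  -- the relation over ℤ
  have hrel0 : ∀ g, ∑ i, c' i * (if (a' i)⁻¹ * g ∈ H' i then (1 : ℤ) else 0) = 0 := by
    intro g
    rw [Fintype.sum_option]
    simp only [hH', ha', hc', Option.elim, Subgroup.mem_top, if_true, one_mul]
    obtain ⟨i, hi, hu⟩ := hpart g
    rw [Finset.sum_eq_single i]
    · rw [if_pos hi]; norm_num
    · intro j _ hj
      rw [if_neg]
      intro h
      exact hj (hu j h)
    · intro h; exact absurd (Finset.mem_univ _) h
  -- indices are pairwise different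
  have hinj : ∀ i j : Option ι, (H' i).index = (H' j).index → i = j := by
    have hne1 : ∀ i, (H i).index ≠ 1 := fun i h => hH i (Subgroup.index_eq_one.1 h)
    intro i j hij
    rcases i with _ | i <;> rcases j with _ | j
    · rfl
    · simp only [hH', Option.elim, Subgroup.index_top] at hij
      exact absurd hij.symm (hne1 j)
    · simp only [hH', Option.elim, Subgroup.index_top] at hij
      exact absurd hij (hne1 i)
    · by_contra hne
      exact hcon i j (fun h => hne (by rw [h])) hij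
  -- sizes of N ∩ H i
  have hk : ∀ i, ∃ b, Nat.card (N ⊓ H' i : Subgroup G) = p ^ b := by
    intro i
    have h1 : IsPGroup p (N ⊓ H' i : Subgroup G) := hN.to_le inf_le_left
    exact IsPGroup.iff_card.1 h1
  choose b hb using hk
  obtain ⟨i1, -, hmin⟩ := Finset.univ.exists_min_image b ⟨none, Finset.mem_univ _⟩
  set T : Finset (Option ι) := Finset.univ.filter fun i => b i = b i1 with hT
  set π : G →* G ⧸ N := QuotientGroup.mk' N with hπ
  have hπs : Function.Surjective π := QuotientGroup.mk'_surjective N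
  have hπk : π.ker = N := QuotientGroup.ker_mk' N
  -- membership
  have hmem : ∀ i g, (π (a' i))⁻¹ * π g ∈ (H' i).map π ↔ ∃ x ∈ N, (a' i)⁻¹ * (g * x) ∈ H' i := by
    intro i g
    rw [← map_inv, ← map_mul, Subgroup.mem_map]
    constructor
    · rintro ⟨h, hh, hh2⟩
      rw [hπ, QuotientGroup.mk'_apply, QuotientGroup.mk'_apply, QuotientGroup.eq] at hh2
      -- h⁻¹ * (a⁻¹ g) ∈ N
      refine ⟨(h⁻¹ * ((a' i)⁻¹ * g))⁻¹, N.inv_mem hh2, ?_⟩
      have : (a' i)⁻¹ * (g * (h⁻¹ * ((a' i)⁻¹ * g))⁻¹) = h := by group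
      rw [this]
      exact hh
    · rintro ⟨x, hx, hx2⟩
      refine ⟨_, hx2, ?_⟩
      rw [hπ, QuotientGroup.mk'_apply, QuotientGroup.mk'_apply, QuotientGroup.eq]
      have : ((a' i)⁻¹ * (g * x))⁻¹ * ((a' i)⁻¹ * g) = x⁻¹ := by group
      rw [this]
      exact N.inv_mem hx
  -- integrated relation
  have hrel1 : ∀ g, ∑ i, c' i * (if (π (a' i))⁻¹ * π g ∈ (H' i).map π then
      (p : ℤ) ^ (b i - b i1) else 0) = 0 := by
    intro g
    have h1 : ∑ x : N, ∑ i, c' i * (if (a' i)⁻¹ * (g * x) ∈ H' i then (1 : ℤ) else 0) = 0 :=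
      Finset.sum_eq_zero fun x _ => hrel0 (g * x)
    rw [Finset.sum_comm] at h1
    have h2 : ∀ i, ∑ x : N, c' i * (if (a' i)⁻¹ * (g * x) ∈ H' i then (1 : ℤ) else 0) =
        (p : ℤ) ^ (b i1) * (c' i * (if (π (a' i))⁻¹ * π g ∈ (H' i).map π then
          (p : ℤ) ^ (b i - b i1) else 0)) := by
      intro i
      rw [← Finset.mul_sum, count_fiber]
      simp only [hmem]
      split_ifs with h
      · rw [hb i, Nat.cast_pow]
        have h3 : b i1 ≤ b i := hmin i (Finset.mem_univ _)
        calc c' i * (p : ℤ) ^ b i = c' i * (p : ℤ) ^ (b i1 + (b i - b i1)) := by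
              rw [Nat.add_sub_cancel' h3]
          _ = _ := by rw [pow_add]; ring
      · simp
    simp only [h2] at h1
    rw [← Finset.mul_sum] at h1
    rcases mul_eq_zero.1 h1 with h3 | h3
    · exact absurd h3 (pow_ne_zero _ (by exact_mod_cast hp.ne_zero))
    · exact h3
  -- relation mod p on T
  have hrel2 : ∀ y : G ⧸ N, ∑ i ∈ T, (if (π (a' i))⁻¹ * y ∈ (H' i).map π then
      ((c' i : ℤ) : ZMod p) else 0) = 0 := by
    intro y
    obtain ⟨g, rfl⟩ := hπs y
    have h1 := congrArg (Int.cast : ℤ → ZMod p) (hrel1 g)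
    rw [Int.cast_sum, Int.cast_zero,
      ← Finset.sum_filter_add_sum_filter_not Finset.univ (fun i => b i = b i1)
      (fun i => ((c' i * (if (π (a' i))⁻¹ * π g ∈ (H' i).map π then
        (p : ℤ) ^ (b i - b i1) else 0) : ℤ) : ZMod p))] at h1
    have h2 : ∑ i ∈ Finset.univ.filter (fun i => ¬ b i = b i1),
        ((c' i * (if (π (a' i))⁻¹ * π g ∈ (H' i).map π then
          (p : ℤ) ^ (b i - b i1) else 0) : ℤ) : ZMod p) = 0 := by
      apply Finset.sum_eq_zero
      intro i hi
      rw [Finset.mem_filter] at hi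
      have h3 : b i1 ≤ b i := hmin i (Finset.mem_univ _)
      have h4 : b i - b i1 ≠ 0 := by have := hi.2; omega
      split_ifs
      · rw [Int.cast_mul, Int.cast_pow, Int.cast_natCast, ZMod.natCast_self, zero_pow h4, mul_zero]
      · simp
    rw [h2, add_zero] at h1
    refine (Finset.sum_congr rfl fun i hi => ?_).trans h1
    rw [Finset.mem_filter] at hi
    rw [hi.2, Nat.sub_self, pow_zero]
    split_ifs <;> simp
  -- the cyclic normal subgroup of G ⧸ N
  obtain ⟨γ, hγ⟩ : ∃ γ : G ⧸ N, Subgroup.zpowers γ = M.map π := by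
    obtain ⟨z, hz⟩ := hM.exists_generator
    obtain ⟨⟨m, hm⟩, rfl⟩ := QuotientGroup.mk_surjective z
    refine ⟨π m, ?_⟩
    apply le_antisymm
    · rw [Subgroup.zpowers_le]
      exact Subgroup.mem_map_of_mem _ hm
    · rintro _ ⟨x, hx, rfl⟩
      obtain ⟨k, hk⟩ := Subgroup.mem_zpowers_iff.1 (hz (QuotientGroup.mk ⟨x, hx⟩))
      rw [Subgroup.mem_zpowers_iff]
      refine ⟨k, ?_⟩
      rw [← QuotientGroup.mk_zpow, QuotientGroup.eq, Subgroup.mem_subgroupOf] at hk
      rw [← map_zpow, hπ, QuotientGroup.mk'_apply, QuotientGroup.mk'_apply, QuotientGroup.eq]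
      simpa using hk
  have : (Subgroup.zpowers γ).Normal := by
    rw [hγ]
    exact Subgroup.Normal.map inferInstance π hπs
  have hs : Thin (Subgroup.zpowers γ).index := by
    rw [hγ, Subgroup.index_map_eq M hπs (by rw [hπk]; exact hNM)]
    exact hGM
  have hempty := linear_independence γ hs T (fun i => (H' i).map π) (fun i => π (a' i))
    (fun i => ((c' i : ℤ) : ZMod p)) (by
      intro i _
      rcases i with _ | i <;> simp [hc']) (by
      intro i hi j hj hij
      apply hinj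
      have h1 : ∀ i, ((H' i).map π).index = (H' i ⊔ N).index := by
        intro i
        rw [Subgroup.index_map, hπk, MonoidHom.range_eq_top.2 hπs, Subgroup.index_top, mul_one]
      rw [h1 i, h1 j] at hij
      rw [index_eq_mul (H' i) N, index_eq_mul (H' j) N, hij]
      congr 1
      have h2 : ∀ i, p ^ b i * (H' i).relIndex N = Nat.card N := by
        intro i
        rw [← hb i]
        have := Subgroup.card_mul_index ((H' i).subgroupOf N)
        rw [← this]
        congr 1
        rw [inf_comm]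
        exact (Nat.card_congr (Subgroup.subgroupOfEquivOfLe
          (inf_le_right : H' i ⊓ N ≤ N)).toEquiv).symm.trans (by rw [Subgroup.inf_subgroupOf_right])
      have h3 := h2 i
      have h4 := h2 j
      rw [(Finset.mem_filter.1 hi).2] at h3
      rw [(Finset.mem_filter.1 hj).2, ← h3] at h4
      exact (Nat.eq_of_mul_eq_mul_left (pow_pos hp.pos _) h4).symm) hrel2
  have : i1 ∈ T := Finset.mem_filter.2 ⟨Finset.mem_univ _, rfl⟩
  rw [hempty] at this
  exact absurd this (Finset.notMem_empty _)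

end Group


/-! ### Automata -/

section Automata

open Function

variable {α : Type} {s : ℕ} {d : Fin s → ℕ}

/-- The joint transition group of the automata `M i`: the group of permutations of the disjoint
union of the state sets generated by the simultaneous actions of the letters. -/
def jointGroup (M : ∀ i, DFA α (Fin (d i))) : Subgroup (Equiv.Perm (Σ i, Fin (d i))) :=
  Subgroup.closure {σ | ∃ a : α, ∀ i (q : Fin (d i)), σ ⟨i, q⟩ = ⟨i, (M i).step q a⟩}

variable {M : ∀ i, DFA α (Fin (d i))}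

/-- every word acts on the disjoint union by an element of the joint group -/
lemma exists_perm_of_word (hinj : ∀ i (a : α), Injective (fun q : Fin (d i) => (M i).step q a))
    (w : List α) : ∃ σ ∈ jointGroup M, ∀ i (q : Fin (d i)), σ ⟨i, q⟩ = ⟨i, (M i).evalFrom q w⟩ := by
  induction w with
  | nil => exact ⟨1, Subgroup.one_mem _, fun i q => rfl⟩
  | cons a w ih =>
    obtain ⟨σ, hσ, hσ2⟩ := ih
    have hbij : ∀ i, Bijective (fun q : Fin (d i) => (M i).step q a) := fun i =>
      Finite.injective_iff_bijective.1 (hinj i a)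
    let τ : Equiv.Perm (Σ i, Fin (d i)) := Equiv.sigmaCongrRight fun i => Equiv.ofBijective _ (hbij i)
    have hτ : ∀ i (q : Fin (d i)), τ ⟨i, q⟩ = ⟨i, (M i).step q a⟩ := fun i q => rfl
    refine ⟨σ * τ, Subgroup.mul_mem _ hσ (Subgroup.subset_closure ⟨a, hτ⟩), fun i q => ?_⟩
    rw [Equiv.Perm.mul_apply, hτ, hσ2]
    rfl

lemma exists_word_of_perm {σ : Equiv.Perm (Σ i, Fin (d i))} (hσ : σ ∈ jointGroup M) :
    ∃ w : List α, ∀ i (q : Fin (d i)), σ ⟨i, q⟩ = ⟨i, (M i).evalFrom q w⟩ := by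
  -- powers
  have hmul : ∀ σ τ : Equiv.Perm (Σ i, Fin (d i)),
      (∃ w : List α, ∀ i (q : Fin (d i)), σ ⟨i, q⟩ = ⟨i, (M i).evalFrom q w⟩) →
      (∃ w : List α, ∀ i (q : Fin (d i)), τ ⟨i, q⟩ = ⟨i, (M i).evalFrom q w⟩) →
      (∃ w : List α, ∀ i (q : Fin (d i)), (σ * τ) ⟨i, q⟩ = ⟨i, (M i).evalFrom q w⟩) := by
    rintro σ τ ⟨w, hw⟩ ⟨v, hv⟩
    refine ⟨v ++ w, fun i q => ?_⟩
    rw [Equiv.Perm.mul_apply, hv, hw, DFA.evalFrom_of_append]
  have hone : ∃ w : List α, ∀ i (q : Fin (d i)),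
      (1 : Equiv.Perm (Σ i, Fin (d i))) ⟨i, q⟩ = ⟨i, (M i).evalFrom q w⟩ := ⟨[], fun i q => rfl⟩
  have hpow : ∀ (σ : Equiv.Perm (Σ i, Fin (d i))) (k : ℕ),
      (∃ w : List α, ∀ i (q : Fin (d i)), σ ⟨i, q⟩ = ⟨i, (M i).evalFrom q w⟩) →
      (∃ w : List α, ∀ i (q : Fin (d i)), (σ ^ k) ⟨i, q⟩ = ⟨i, (M i).evalFrom q w⟩) := by
    intro σ k h
    induction k with
    | zero => simpa using hone
    | succ k ih => rw [pow_succ]; exact hmul _ _ ih h
  induction hσ using Subgroup.closure_induction with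
  | mem σ h =>
    obtain ⟨a, ha⟩ := h
    exact ⟨[a], fun i q => ha i q⟩
  | one => exact hone
  | mul σ τ _ _ h1 h2 => exact hmul σ τ h1 h2
  | inv σ _ h =>
    have h1 : σ⁻¹ = σ ^ (orderOf σ - 1) := by
      rw [eq_comm, ← mul_right_inj σ, mul_inv_cancel, ← pow_succ',
        Nat.sub_add_cancel (orderOf_pos σ), pow_orderOf_eq_one]
    rw [h1]
    exact hpow σ _ h

/-- The class of groups treated here: `G` has normal subgroups `N ≤ K` such that `N` is a finite
`p`-group for a prime `p`, `K / N` is cyclic (generated by the class of `c`) and the index of `K` in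
`G` is thin. -/
def IsPByCyclicByThin (G : Type) [Group G] : Prop :=
  ∃ p : ℕ, p.Prime ∧ ∃ N K : Subgroup G, N.Normal ∧ K.Normal ∧ N ≤ K ∧
    (∃ m : ℕ, Nat.card N = p ^ m) ∧ (∃ c ∈ K, ∀ k ∈ K, ∃ m : ℤ, (c ^ m)⁻¹ * k ∈ N) ∧ Thin K.index

lemma isCyclic_quotient {G : Type*} [Group G] (N K : Subgroup G) [N.Normal]
    (h : ∃ c ∈ K, ∀ k ∈ K, ∃ m : ℤ, (c ^ m)⁻¹ * k ∈ N) : IsCyclic (K ⧸ N.subgroupOf K) := by
  obtain ⟨c, hc, h⟩ := h
  refine ⟨⟨QuotientGroup.mk ⟨c, hc⟩, fun x => ?_⟩⟩
  induction x using QuotientGroup.induction_on with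
  | H k =>
    obtain ⟨m, hm⟩ := h k k.2
    refine ⟨m, ?_⟩
    show (QuotientGroup.mk (⟨c, hc⟩ : K) : K ⧸ N.subgroupOf K) ^ m = _
    rw [← QuotientGroup.mk_zpow, QuotientGroup.eq, Subgroup.mem_subgroupOf]
    exact hm

/-- **Theorem.** Question Q1 has a positive answer for all automata whose joint transition group
`G` has normal subgroups `N ≤ K` such that `N` is a `p`-group for some prime `p`, `K / N` is cyclic
and the index of `K` in `G` is thin (for instance a power of a prime, or `1`). -/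
theorem result (α : Type) [Fintype α] (s : ℕ) (d : Fin s → ℕ) (M : ∀ i, DFA α (Fin (d i)))
    (hd : ∀ i, 1 < d i)
    (hinj : ∀ i (a : α), Function.Injective (fun q : Fin (d i) => (M i).step q a))
    (hacc : ∀ i, ∃ f : Fin (d i), (M i).accept = {f})
    (hconn : ∀ i (p q : Fin (d i)), ∃ w : List α, (M i).evalFrom p w = q)
    (hpart : ∀ w : List α, ∃! i, w ∈ (M i).accepts)
    (hG : IsPByCyclicByThin (jointGroup M)) :
    ∃ j k : Fin s, j ≠ k ∧ d j = d k := by
  classical
  obtain ⟨p, hp, N, K, hN0, hK0, hNK, ⟨m, hN⟩, hK, hthin⟩ := hG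
  have hN := IsPGroup.of_card hN
  have hK := isCyclic_quotient N K hK
  choose f hf using hacc
  -- the point of the disjoint union corresponding to the start state
  let x : ∀ i : Fin s, (Σ i, Fin (d i)) := fun i => ⟨i, (M i).start⟩
  let y : ∀ i : Fin s, (Σ i, Fin (d i)) := fun i => ⟨i, f i⟩
  have htrans : ∀ i (q : Fin (d i)), ∃ g : jointGroup M, g • x i = ⟨i, q⟩ := by
    intro i q
    obtain ⟨w, hw⟩ := hconn i (M i).start q
    obtain ⟨σ, hσ, hσ2⟩ := exists_perm_of_word hinj w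
    exact ⟨⟨σ, hσ⟩, by
      show σ (x i) = _
      rw [hσ2, hw]⟩
  choose a ha using fun i => htrans i (f i)
  let H : Fin s → Subgroup (jointGroup M) := fun i => MulAction.stabilizer (jointGroup M) (x i)
  have hmem : ∀ i (g : jointGroup M), (a i)⁻¹ * g ∈ H i ↔ g • x i = y i := by
    intro i g
    rw [MulAction.mem_stabilizer_iff, mul_smul, inv_smul_eq_iff, ha]
  have hindex : ∀ i, (H i).index = d i := by
    intro i
    rw [MulAction.index_stabilizer]
    have : MulAction.orbit (jointGroup M) (x i) = Set.range (fun q : Fin (d i) =>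
        (⟨i, q⟩ : Σ i, Fin (d i))) := by
      ext z
      constructor
      · rintro ⟨g, rfl⟩
        obtain ⟨w, hw⟩ := exists_word_of_perm g.2
        exact ⟨_, (hw i (M i).start).symm⟩
      · rintro ⟨q, rfl⟩
        obtain ⟨g, hg⟩ := htrans i q
        exact ⟨g, hg⟩
    have hinj' : Function.Injective (fun q : Fin (d i) => (⟨i, q⟩ : Σ i, Fin (d i))) :=
      fun a b h => by simpa using h
    rw [this, ← Set.image_univ, Set.ncard_image_of_injective _ hinj', Set.ncard_univ]
    simp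
  obtain ⟨i, j, hij, h⟩ := herzog_schonheim N K hNK p hp hN hK hthin H a (by
    intro i h
    have := hindex i
    rw [h, Subgroup.index_top] at this
    have := hd i
    omega) (by
    intro g
    obtain ⟨w, hw⟩ := exists_word_of_perm g.2
    have key : ∀ i, (a i)⁻¹ * g ∈ H i ↔ w ∈ (M i).accepts := by
      intro i
      rw [hmem, DFA.mem_accepts, DFA.eval, hf i, Set.mem_singleton_iff]
      have h1 : g • x i = ⟨i, (M i).evalFrom (M i).start w⟩ := hw i (M i).start
      rw [h1]
      constructor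
      · intro h
        simpa [y] using h
      · intro h
        simp only [y, h]
    obtain ⟨i, hi, hu⟩ := hpart w
    exact ⟨i, (key i).2 hi, fun j hj => hu j ((key j).1 hj)⟩)
  exact ⟨i, j, hij, by rw [← hindex i, ← hindex j, h]⟩

end Automata

end Pool.Agent.Results.MP_961d7e_lc.PByCyclicByThin
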